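import Pool.Agent.helper26.T5.SpecB

set_option autoImplicit false

/-! # T5 (MP_16912e_nt), row LII: points with a square divisor -/

namespace Pool.Agent.helper74.T5

open NumberField Pool.Agent.helper3.FT Pool.Agent.helper47.RA Pool.Agent.T5 Pool.Agent.helper26.T5

/-- the sum of the inverse squares beyond `w` -/
theorem LII_sum (w M : ℕ) (hw : 1 ≤ w) :
    ∑ p ∈ Finset.Ioc w M, ((p : ℝ) ^ 2)⁻¹ ≤ (w : ℝ)⁻¹ := by
  have hw0 : (0 : ℝ) ≤ (w : ℝ)⁻¹ := by positivity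
  rcases Nat.lt_or_ge M w with h | h
  · rw [Finset.Ioc_eq_empty_of_le h.le, Finset.sum_empty]
    exact hw0
  · have h1 := sum_Ioc_inv_sq_le_sub (α := ℝ) (show w ≠ 0 by omega) h
    have h2 : (0 : ℝ) ≤ (M : ℝ)⁻¹ := by positivity
    linarith

theorem lii (h : LP) : LII := by
  intro K _ _ Q a w H T hD ha hw hH hT S hS
  classical
  set Z := Ideal.absNorm a with hZ
  set s : ℝ := √|(Q.D : ℝ)| with hs
  have hs0 : 0 ≤ s := Real.sqrt_nonneg _
  let P : Finset ℕ := (Finset.Ioc w ⌊H⌋₊).filter fun p => p.Prime ∧ ¬ p ∣ Z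
  let F : ℕ → Finset (𝓞 K) := fun p => S.filter fun α => (p : ℤ) ^ 2 ∣ Q.Y α
  have hsub : S ⊆ P.biUnion F := by
    intro α hα
    obtain ⟨-, -, p, hp, hwp, hpH, hpZ, hdv⟩ := hS α hα
    rw [Finset.mem_biUnion]
    refine ⟨p, ?_, ?_⟩
    · exact Finset.mem_filter.mpr ⟨Finset.mem_Ioc.mpr ⟨hwp, Nat.le_floor hpH⟩, hp, hpZ⟩
    · exact Finset.mem_filter.mpr ⟨hα, hdv⟩
  have hone : ∀ p ∈ P, ((F p).card : ℝ) ≤ 1 + 2 * Real.pi * T / s * ((p : ℝ) ^ 2)⁻¹ := by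
    intro p hp
    obtain ⟨h1, h2, h3⟩ := Finset.mem_filter.mp hp
    have hp1 : 1 ≤ p ^ 2 := Nat.one_le_pow _ _ h2.pos
    have hcop : Nat.Coprime (p ^ 2) (1 * Ideal.absNorm a) := by
      rw [one_mul]
      exact Nat.Coprime.pow_left 2 ((Nat.Prime.coprime_iff_not_dvd h2).mpr h3)
    have h4 := h K Q a T (p ^ 2) 1 hD ha hT hp1 hcop squarefree_one (by omega)
      (fun l hl hl1 => absurd (Nat.dvd_one.mp hl1) hl.one_lt.ne') (F p) (by
        intro α hα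
        obtain ⟨hαS, hαp⟩ := Finset.mem_filter.mp hα
        obtain ⟨hA, hC, -⟩ := hS α hαS
        refine ⟨hA, hC, ?_, ?_⟩
        · push_cast
          exact hαp
        · rw [one_mul, nn, ← map_pow]
          have hmem : α ∈ a ^ 2 := hA.1
          exact Ideal.absNorm_dvd_absNorm_of_le ((Ideal.span_singleton_le_iff_mem _).mpr hmem))
    refine h4.trans (le_of_eq ?_)
    push_cast
    rw [← hs, mul_one, mul_comm ((p : ℝ) ^ 2) s, ← div_div, div_eq_mul_inv (2 * Real.pi * T / s)]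
  have hcard : (S.card : ℝ) ≤ ∑ p ∈ P, ((F p).card : ℝ) := by
    have h1 : S.card ≤ ∑ p ∈ P, (F p).card :=
      (Finset.card_le_card hsub).trans Finset.card_biUnion_le
    exact_mod_cast h1
  have hPc : (P.card : ℝ) ≤ H := by
    have h1 : P.card ≤ ⌊H⌋₊ := by
      refine (Finset.card_filter_le _ _).trans ?_
      rw [Nat.card_Ioc]
      omega
    exact le_trans (by exact_mod_cast h1) (Nat.floor_le (by linarith))
  have hc0 : 0 ≤ 2 * Real.pi * T / s := by positivity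
  have hsum : ∑ p ∈ P, ((p : ℝ) ^ 2)⁻¹ ≤ (w : ℝ)⁻¹ := by
    refine le_trans ?_ (LII_sum w ⌊H⌋₊ hw)
    exact Finset.sum_le_sum_of_subset_of_nonneg (Finset.filter_subset _ _)
      (fun i _ _ => by positivity)
  calc (S.card : ℝ) ≤ ∑ p ∈ P, ((F p).card : ℝ) := hcard
    _ ≤ ∑ p ∈ P, (1 + 2 * Real.pi * T / s * ((p : ℝ) ^ 2)⁻¹) := Finset.sum_le_sum hone
    _ = P.card + 2 * Real.pi * T / s * ∑ p ∈ P, ((p : ℝ) ^ 2)⁻¹ := by
        rw [Finset.sum_add_distrib, Finset.mul_sum]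
        simp
    _ ≤ H + 2 * Real.pi * T / s * (w : ℝ)⁻¹ :=
        add_le_add hPc (mul_le_mul_of_nonneg_left hsum hc0)
    _ = H + 2 * Real.pi * T / (w * s) := by
        rw [mul_comm (w : ℝ) s, ← div_div, div_eq_mul_inv (2 * Real.pi * T / s)]

end Pool.Agent.helper74.T5
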