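import Pool.Agent.helper8.T5.SpecU

set_option autoImplicit false

/-! # T5 (MP_16912e_nt), row UEC: counting -/

namespace Pool.Agent.T5

open Finset NumberField Pool.Agent.helper3.FT Pool.Agent.helper47.RA

/-- the data attached to an ideal -/
def UEC_data {K : Type} [Field K] [NumberField K] (Q : QF K) (a : Ideal (𝓞 K)) (q : ℤ × ℤ) : Prop :=
  ∃ θ₁ : 𝓞 K, EQd Q.D (rr Q a) (zz Q a) q.1 q.2 ∧ q.2 ≠ 0 ∧
    2 * θ₁ = (rr Q a : 𝓞 K) * q.1 + q.2 * (2 * Q.ω - Q.t) ∧
    a ^ 5 = Ideal.span {(rr Q a : 𝓞 K) ^ 2 * θ₁}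

/-- the data determine the ideal -/
theorem UEC_inj {K : Type} [Field K] [NumberField K] (Q : QF K) (a a' : Ideal (𝓞 K)) (q : ℤ × ℤ)
    (h : UEC_data Q a q) (h' : UEC_data Q a' q) (hr : rr Q a = rr Q a') : a = a' := by
  obtain ⟨θ, -, -, h1, h2⟩ := h
  obtain ⟨θ', -, -, h1', h2'⟩ := h'
  have h3 : θ = θ' := by
    have h4 : (2 : 𝓞 K) * θ = 2 * θ' := by rw [h1, h1', hr]
    exact mul_left_cancel₀ (by norm_num) h4
  exact pow_inj a a' 5 (by norm_num) (by rw [h2, h2', hr, h3])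

/-- the data determine the discriminant -/
theorem UEC_disc (D D' : ℤ) (r z : ℕ) (X R : ℤ) (hR : R ≠ 0) (h : EQd D r z X R)
    (h' : EQd D' r z X R) : D = D' := by
  have h1 := h.eq
  have h2 := h'.eq
  have h3 : (D - D') * R ^ 2 = 0 := by linarith
  rcases mul_eq_zero.mp h3 with h4 | h4
  · linarith
  · exact absurd (pow_eq_zero_iff (two_ne_zero)|>.mp h4) hR

theorem UEC (hUEA : UEA_stmt) (hUEI : UEI_stmt) (hUEL : UEL_stmt) : UEC_stmt := by
  intro ε hε
  obtain ⟨C, hC, hUEL⟩ := hUEL ε hε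
  refine ⟨C, hC, ?_⟩
  intro N Y hN hY s Φ hs P 𝒜 hP hA
  classical
  have hDneg : ∀ D : s, (Φ D).Q.D < 0 := by
    intro D
    rw [(Φ D).hD]
    have h1 := (hs D.1 D.2).1
    have h2 : ((D.1 : ℤ) : ℝ) < 0 := by linarith
    exact_mod_cast h2
  -- finiteness
  have hfin : ∀ D : s, (𝒜 D).Finite := by
    intro D
    refine (Ideal.finite_setOf_absNorm_le (S := 𝓞 (Φ D).K) ⌊Y⌋₊).subset ?_
    intro a ha
    obtain ⟨h1, h2, -, -, h5⟩ := hA D a ha
    obtain ⟨I, b, -, -, -, -, -, -, h6, -⟩ := hUEA _ (Φ D).Q a h1 h2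
    have h7 := hP _ h5
    rw [Set.mem_setOf_eq, h6]
    apply Nat.le_floor
    push_cast
    exact h7
  -- the data
  have hdat : ∀ x : (Σ D : s, Ideal (𝓞 (Φ D).K)), ∃ q : ℤ × ℤ, x.2 ∈ 𝒜 x.1 →
      UEC_data (Φ x.1).Q x.2 q := by
    intro x
    by_cases hx : x.2 ∈ 𝒜 x.1
    · obtain ⟨h1, h2, h3, h4, h5⟩ := hA x.1 x.2 hx
      have htop : x.2 ≠ ⊤ := by
        intro h
        exact h4 (by rw [h]; exact top_isPrincipal)
      obtain ⟨X, R, θ₁, h6, h7, h8, h9⟩ := hUEI _ (Φ x.1).Q (hDneg x.1) x.2 h1 h2 htop h3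
      exact ⟨(X, R), fun _ => ⟨θ₁, h6, h7, h8, h9⟩⟩
    · exact ⟨(0, 0), fun h => absurd h hx⟩
  choose g hg using hdat
  let T : Finset (Σ D : s, Ideal (𝓞 (Φ D).K)) := Finset.univ.sigma fun D => (hfin D).toFinset
  have hTmem : ∀ x, x ∈ T ↔ x.2 ∈ 𝒜 x.1 := by
    intro x
    simp [T]
  have hTcard : (∑ D : s, ((𝒜 D).ncard : ℝ)) = (T.card : ℝ) := by
    rw [Finset.card_sigma]
    push_cast
    apply Finset.sum_congr rfl
    intro D _
    rw [Set.ncard_eq_toFinset_card _ (hfin D)]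
  let f : (Σ D : s, Ideal (𝓞 (Φ D).K)) → ℕ × ℕ := fun x => (rr (Φ x.1).Q x.2, zz (Φ x.1).Q x.2)
  have hmaps : ∀ x ∈ T, f x ∈ P := by
    intro x hx
    exact (hA x.1 x.2 ((hTmem x).mp hx)).2.2.2.2
  have hfib : T.card = ∑ p ∈ P, (T.filter fun x => f x = p).card :=
    Finset.card_eq_sum_card_fiberwise (fun x hx => hmaps x hx)
  have hbound : ∀ p ∈ P, ((T.filter fun x => f x = p).card : ℝ) ≤
      C * Y ^ ε * (√N / p.1 + (p.2 : ℝ) ^ 2 * √p.2 * √p.1 / √N) := by
    intro p hp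
    have hnn : 0 ≤ √N / p.1 + (p.2 : ℝ) ^ 2 * √p.2 * √p.1 / √N := by positivity
    have hCY : 0 ≤ C * Y ^ ε := by positivity
    rcases (T.filter fun x => f x = p).eq_empty_or_nonempty with he | hne
    · rw [he, Finset.card_empty, Nat.cast_zero]
      positivity
    · -- the first components are positive
      obtain ⟨x0, hx0⟩ := hne
      obtain ⟨hx0T, hx0p⟩ := Finset.mem_filter.mp hx0
      obtain ⟨h1, h2, -, -, -⟩ := hA x0.1 x0.2 ((hTmem x0).mp hx0T)
      obtain ⟨I, b, -, -, -, -, -, -, -, hr1, hz1, -⟩ := hUEA _ (Φ x0.1).Q x0.2 h1 h2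
      have hp1 : 1 ≤ p.1 := by
        rw [← hx0p]
        exact hr1
      have hp2 : 1 ≤ p.2 := by
        rw [← hx0p]
        exact hz1
      have hinj : Set.InjOn g (T.filter fun x => f x = p : Finset _) := by
        intro x hx y hy hxy
        rw [Finset.mem_coe, Finset.mem_filter] at hx hy
        obtain ⟨hxT, hxp⟩ := hx
        obtain ⟨hyT, hyp⟩ := hy
        have dx := hg x ((hTmem x).mp hxT)
        have dy := hg y ((hTmem y).mp hyT)
        rw [← hxy] at dy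
        have hrr : rr (Φ x.1).Q x.2 = rr (Φ y.1).Q y.2 := by
          have := congrArg Prod.fst (hxp.trans hyp.symm)
          exact this
        have hzz : zz (Φ x.1).Q x.2 = zz (Φ y.1).Q y.2 := by
          have := congrArg Prod.snd (hxp.trans hyp.symm)
          exact this
        have hD : x.1 = y.1 := by
          obtain ⟨_, ex, hR, -, -⟩ := dx
          obtain ⟨_, ey, -, -, -⟩ := dy
          rw [(Φ x.1).hD] at ex
          rw [(Φ y.1).hD, ← hrr, ← hzz] at ey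
          exact Subtype.ext (UEC_disc _ _ _ _ _ _ hR ex ey)
        obtain ⟨D, a⟩ := x
        obtain ⟨D', a'⟩ := y
        simp only at hD
        subst hD
        have := UEC_inj (Φ D).Q a a' _ dx dy hrr
        rw [this]
      rw [← Finset.card_image_of_injOn hinj]
      have h3 := hUEL N p.1 p.2 hN hp1 hp2 ((T.filter fun x => f x = p).image g) (by
        intro q hq
        obtain ⟨x, hx, rfl⟩ := Finset.mem_image.mp hq
        obtain ⟨hxT, hxp⟩ := Finset.mem_filter.mp hx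
        obtain ⟨_, ex, hR, -, -⟩ := hg x ((hTmem x).mp hxT)
        refine ⟨hR, x.1.1, (hs x.1.1 x.1.2).1, (hs x.1.1 x.1.2).2, ?_⟩
        rw [(Φ x.1).hD] at ex
        rw [← hxp]
        exact ex)
      refine h3.trans ?_
      refine mul_le_mul_of_nonneg_right ?_ hnn
      refine mul_le_mul_of_nonneg_left ?_ (by linarith)
      exact Real.rpow_le_rpow (by positivity) (hP p hp) hε.le
  rw [hTcard, hfib]
  push_cast
  rw [Finset.mul_sum]
  exact Finset.sum_le_sum hbound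

end Pool.Agent.T5
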